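import Pool.Agent.H62.LP.T1

/-!
# Loop percolation in dimension three: row FHT

The distribution of the first visit to a set has mass at most one.
-/

set_option autoImplicit false

open MeasureTheory ProbabilityTheory Filter Topology
open scoped ENNReal NNReal

namespace Pool.Agent.H89.LP

open Pool.Agent.H62.LP

/-- lists are empty, or consist of a head and a tail -/
def listSum (V : Type) : (Unit ⊕ (V × List V)) ≃ List V where
  toFun := fun s => match s with
    | Sum.inl _ => []
    | Sum.inr p => p.1 :: p.2
  invFun := fun l => match l with
    | [] => Sum.inl ()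
    | u :: l => Sum.inr (u, l)
  left_inv := by
    rintro (x | ⟨u, l⟩) <;> rfl
  right_inv := by
    rintro (_ | ⟨u, l⟩) <;> rfl

/-- sums over lists, by the first letter -/
theorem tsum_list {V : Type} (f : List V → ℝ≥0∞) :
    ∑' l : List V, f l = f [] + ∑' (u : V) (l : List V), f (u :: l) := by
  rw [← (listSum V).tsum_eq f, ENNReal.summable.tsum_sum ENNReal.summable]
  rw [← ENNReal.tsum_prod (f := fun (u : V) (l : List V) => f (u :: l))]
  congr 1
  rw [tsum_fintype]
  simp [listSum]

/-- sums over lists are bounded, if the sums over the lists of bounded length are -/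
theorem tsum_list_le {V : Type} (f : List V → ℝ≥0∞) (C : ℝ≥0∞)
    (h : ∀ n : ℕ, ∑' l : List V, (if l.length < n then f l else 0) ≤ C) :
    ∑' l : List V, f l ≤ C := by
  rw [ENNReal.tsum_eq_iSup_sum]
  refine iSup_le fun s => ?_
  refine le_trans ?_ (h (s.sup List.length + 1))
  refine le_trans (le_of_eq ?_) (ENNReal.sum_le_tsum s)
  refine Finset.sum_congr rfl fun l hl => ?_
  rw [if_pos]
  exact Nat.lt_succ_of_le (Finset.le_sup (f := List.length) hl)

open Classical in
/-- the sum over the walks of bounded length -/
theorem trunc_le (V : Type) (q : V → V → ℝ≥0∞) (hq : ∀ x, ∑' y, q x y ≤ 1) (S : Set V) (n : ℕ) :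
    ∀ x : V, ∑' t : List V, (if t.length < n then ∑' (y : V),
      (if (∀ u ∈ t, u ∉ S) ∧ y ∈ S then wt q x (t ++ [y]) else 0) else 0) ≤ 1 := by
  induction n with
  | zero =>
    intro x
    simp
  | succ n ih =>
    intro x
    rw [tsum_list]
    have h1 : ∀ (u : V) (t : List V), (if (u :: t).length < n + 1 then ∑' (y : V),
        (if (∀ v ∈ u :: t, v ∉ S) ∧ y ∈ S then wt q x (u :: t ++ [y]) else 0) else 0) =
        (if u ∈ S then 0 else q x u) * (if t.length < n then ∑' (y : V),
          (if (∀ v ∈ t, v ∉ S) ∧ y ∈ S then wt q u (t ++ [y]) else 0) else 0) := by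
      intro u t
      by_cases hl : t.length < n
      · rw [if_pos (by simpa using hl), if_pos hl, ← ENNReal.tsum_mul_left]
        refine tsum_congr fun y => ?_
        by_cases hu : u ∈ S
        · rw [if_pos hu, if_neg (by
            intro hcon
            exact hcon.1 u (by simp) hu), zero_mul]
        · rw [if_neg hu]
          by_cases ht : (∀ v ∈ t, v ∉ S) ∧ y ∈ S
          · rw [if_pos ht, if_pos (by
              refine ⟨?_, ht.2⟩
              intro v hv
              rcases List.mem_cons.1 hv with hv | hv
              · rw [hv]; exact hu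
              · exact ht.1 v hv)]
            simp
          · rw [if_neg ht, if_neg (by
              intro hcon
              exact ht ⟨fun v hv => hcon.1 v (List.mem_cons_of_mem _ hv), hcon.2⟩), mul_zero]
      · rw [if_neg (by simpa using hl), if_neg hl, mul_zero]
    simp_rw [h1]
    calc _ ≤ (∑' y : V, (if y ∈ S then q x y else 0)) +
          ∑' u : V, (if u ∈ S then 0 else q x u) := by
          refine add_le_add ?_ ?_
          · rw [if_pos (by simp)]
            refine ENNReal.tsum_le_tsum fun y => ?_
            by_cases hy : y ∈ S
            · rw [if_pos hy]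
              simp [hy]
            · simp [hy]
          · refine ENNReal.tsum_le_tsum fun u => ?_
            rw [ENNReal.tsum_mul_left]
            calc _ ≤ (if u ∈ S then 0 else q x u) * 1 := by gcongr; exact ih u
              _ = _ := mul_one _
      _ = ∑' y : V, q x y := by
          rw [← ENNReal.tsum_add]
          refine tsum_congr fun y => ?_
          by_cases hy : y ∈ S <;> simp [hy]
      _ ≤ 1 := hq x

theorem pf_FHT : T_FHT := by
  intro V q hq S x
  exact tsum_list_le _ 1 fun n => trunc_le V q hq S n x

end Pool.Agent.H89.LP

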