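import Pool.Agent.H62.LP.T4

/-!
# Loop percolation in dimension three: row FIN

The two thresholds agree in dimension three, from the finite size criterion.
-/

set_option autoImplicit false

open MeasureTheory ProbabilityTheory Filter Topology
open scoped ENNReal NNReal

namespace Pool.Agent.H89.LP

open Pool.Agent.H62.LP

theorem pf_FIN (hEAS : T_EAS) (hFSC : T_FSC) (hMON : T_MON) : T_FIN := by
  refine le_antisymm (hEAS 3) ?_
  refine le_of_forall_gt fun c hc => ?_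
  obtain ⟨α', h1, h2⟩ := ENNReal.lt_iff_exists_nnreal_btwn.1 hc
  obtain ⟨α, h3, h4⟩ := ENNReal.lt_iff_exists_nnreal_btwn.1 h1
  have h4' : α < α' := ENNReal.coe_lt_coe.1 h4
  obtain ⟨β, η, hβ, hη, hF⟩ := hFSC α (α' - α) (tsub_pos_of_lt h4')
  have h5 : α + (α' - α) = α' := add_tsub_cancel_of_le h4'.le
  rw [h5] at hF
  have hβ1 : (1 : ℝ) < (β : ℝ) := by exact_mod_cast (by omega : 1 < β)
  have h6 : (⨅ (a : ℝ≥0) (_ : 0 < a ∧ limsup (fun n : ℕ =>
      soup 3 a {N | Cross n ⌈(β : ℝ) * n⌉₊ N}) atTop = 1), (a : ℝ≥0∞)) ≤ alphaSharp 3 := by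
    unfold alphaSharp
    exact le_iSup₂ (f := fun (β : ℝ) (_ : 1 < β) => ⨅ (α : ℝ≥0)
      (_ : 0 < α ∧ limsup (fun n : ℕ => soup 3 α {N | Cross n ⌈β * n⌉₊ N}) atTop = 1),
        (α : ℝ≥0∞)) (β : ℝ) hβ1
  have h7 := h6.trans_lt h3
  obtain ⟨a, ha⟩ := iInf_lt_iff.1 h7
  obtain ⟨⟨ha0, hlim⟩, haα⟩ := iInf_lt_iff.1 ha
  have haα' : a < α := ENNReal.coe_lt_coe.1 haα
  have h8 : ENNReal.ofReal (1 - η) < limsup (fun n : ℕ =>
      soup 3 a {N | Cross n ⌈(β : ℝ) * n⌉₊ N}) atTop := by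
    rw [hlim]
    exact ENNReal.ofReal_lt_one.2 (by linarith)
  obtain ⟨n, hn, h9⟩ := (Filter.frequently_atTop.1 (frequently_lt_of_lt_limsup
    (by isBoundedDefault) h8)) 1
  have h10 : ⌈(β : ℝ) * n⌉₊ = β * n := by
    have h11 : (β : ℝ) * n = ((β * n : ℕ) : ℝ) := by push_cast; ring
    rw [h11, Nat.ceil_natCast]
  rw [h10] at h9
  have h12 := hF n hn (h9.le.trans (hMON 3 a α haα'.le n (β * n)))
  have h13 : alphaC 3 ≤ (α' : ℝ≥0∞) := by
    unfold alphaC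
    exact iInf₂_le α' h12
  exact h13.trans_lt h2

end Pool.Agent.H89.LP

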