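import Pool.Agent.H62.LP.T1
import Pool.Agent.H62.LP.T5

/-!
# Loop percolation in dimension three: row DEC

Polynomial decay below the annulus crossing threshold.
-/

set_option autoImplicit false

open MeasureTheory ProbabilityTheory Filter Topology
open scoped ENNReal NNReal

namespace Pool.Agent.H89.LP

open Pool.Agent.H62.LP

theorem nm_adj {d : ℕ} {x y : Vt d} (h : Adj x y) : nm y ≤ nm x + 1 := by
  unfold nm
  refine Finset.sup_le fun i _ => ?_
  have h1 : |x i - y i| ≤ 1 := by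
    have h2 := Finset.single_le_sum (f := fun i => |x i - y i|) (s := Finset.univ)
      (fun i _ => abs_nonneg _) (Finset.mem_univ i)
    unfold Adj at h
    omega
  have h3 : (x i).natAbs ≤ Finset.univ.sup (fun i => (x i).natAbs) :=
    Finset.le_sup (f := fun i => (x i).natAbs) (Finset.mem_univ i)
  have h4 := abs_le.1 h1
  omega

/-- paths with small steps meet all the spheres between their end points -/
theorem path_meets {d : ℕ} {r : Vt d → Vt d → Prop} (hr : ∀ u v, r u v → nm v ≤ nm u + 1)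
    {x y : Vt d} (h : Relation.ReflTransGen r x y) (m : ℕ) (hx : nm x ≤ m) (hy : m ≤ nm y) :
    ∃ u, Relation.ReflTransGen r x u ∧ nm u = m := by
  induction h with
  | refl => exact ⟨x, Relation.ReflTransGen.refl, by omega⟩
  | @tail b c hb hbc ih =>
    by_cases h1 : m ≤ nm b
    · exact ih h1
    · have h2 := hr b c hbc
      exact ⟨c, hb.tail hbc, by omega⟩

theorem pf_DEC (hDE1 : T_DE1) (hADJ : T_ADJ) (hPRS : T_PRS) : T_DEC := by
  intro α hα hlt
  have hcount : Countable (Cycle (Vt 3)) :=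
    inferInstanceAs (Countable (Quotient (List.IsRotated.setoid (Vt 3))))
  unfold alphaSharp at hlt
  obtain ⟨β, hβ'⟩ := lt_iSup_iff.1 hlt
  obtain ⟨hβ, hβ2⟩ := lt_iSup_iff.1 hβ'
  have hprob : IsProbabilityMeasure (soup 3 α) := by unfold soup; infer_instance
  set u : ℕ → ℝ≥0∞ := fun n : ℕ => soup 3 α {N | Cross n ⌈β * n⌉₊ N} with hu
  have hlim : limsup u atTop ≠ 1 := by
    intro hcon
    have h1 : (⨅ (a : ℝ≥0) (_ : 0 < a ∧ limsup (fun n : ℕ =>
        soup 3 a {N | Cross n ⌈β * n⌉₊ N}) atTop = 1), (a : ℝ≥0∞)) ≤ (α : ℝ≥0∞) :=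
      iInf₂_le α ⟨hα, hcon⟩
    exact absurd hβ2 (not_lt.2 h1)
  have hlim1 : limsup u atTop ≤ 1 := by
    refine (limsup_le_limsup (v := fun _ => (1 : ℝ≥0∞))
      (Eventually.of_forall fun n => prob_le_one)).trans ?_
    exact le_of_eq (limsup_const 1)
  have hlim2 : limsup u atTop < 1 := lt_of_le_of_ne hlim1 hlim
  obtain ⟨q', hq1, hq2⟩ := ENNReal.lt_iff_exists_nnreal_btwn.1 hlim2
  have hq2' : (q' : ℝ) < 1 := by exact_mod_cast hq2
  set q : ℝ := max q' (1 / 2) with hq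
  have hq0 : 0 < q := lt_of_lt_of_le (by norm_num) (le_max_right _ _)
  have hqlt : q < 1 := max_lt hq2' (by norm_num)
  have hqq : (q' : ℝ≥0∞) ≤ ENNReal.ofReal q := by
    rw [← ENNReal.ofReal_coe_nnreal]
    exact ENNReal.ofReal_le_ofReal (le_max_left _ _)
  obtain ⟨n₀, hn₀⟩ := eventually_atTop.1 (eventually_lt_of_limsup_lt hq1 (by isBoundedDefault))
  set b : ℕ := ⌈β⌉₊ + 1 with hb
  have hβc : β ≤ (⌈β⌉₊ : ℝ) := Nat.le_ceil β
  have hb2 : 2 ≤ b := by
    have h1 : 1 ≤ ⌈β⌉₊ := Nat.one_le_ceil_iff.2 (by linarith)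
    omega
  -- crossings of the larger annulus
  have hae : ∀ᵐ N ∂(soup 3 α), ∀ c, 1 ≤ N c → inten 3 α c ≠ 0 := hPRS _ (inten 3 α)
  have hmono : ∀ n : ℕ, soup 3 α {N | Cross n (b * n) N} ≤ u n := by
    intro n
    refine measure_mono_ae ?_
    filter_upwards [hae] with N hN
    rintro ⟨x, y, hx, hy, hxy⟩
    have hstep : ∀ v w, Open N v w → nm w ≤ nm v + 1 := by
      rintro v w ⟨c, hc, hT⟩
      have h1 := hN c hc
      have h2 : mu c ≠ 0 := by
        intro h3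
        apply h1
        unfold inten
        rw [h3]
        simp
      exact nm_adj ((hADJ 3 c h2).1 v w hT).1
    have hn0 : (0 : ℝ) ≤ n := Nat.cast_nonneg n
    have h1 : n ≤ ⌈β * n⌉₊ := by
      have h2 : (n : ℝ) ≤ β * n := by nlinarith
      have h3 := h2.trans (Nat.le_ceil (β * n))
      exact_mod_cast h3
    have h4 : ⌈β * n⌉₊ ≤ b * n := by
      refine Nat.ceil_le.2 ?_
      push_cast
      rw [hb]
      push_cast
      nlinarith
    obtain ⟨w, hw1, hw2⟩ := path_meets hstep hxy ⌈β * n⌉₊ (hx.trans h1) (by omega)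
    exact ⟨x, w, hx, hw2, hw1⟩
  obtain ⟨l, a, ρ, hl, ha, hρ0, hρ1, hdec⟩ := hDE1 α b n₀ q hb2 hq0 hqlt
    (fun n hn => (hmono n).trans ((hn₀ n hn).le.trans hqq))
  -- the exponent
  set Λ : ℕ := l * l * b with hΛ
  have hΛ2 : 2 ≤ Λ := by
    calc 2 ≤ 1 * 1 * 2 := by norm_num
      _ ≤ l * l * b := Nat.mul_le_mul (Nat.mul_le_mul (by omega) (by omega)) hb2
  have hΛr : (1 : ℝ) < Λ := by exact_mod_cast (by omega : 1 < Λ)
  have hlogΛ : 0 < Real.log Λ := Real.log_pos hΛr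
  have hlogρ : Real.log ρ < 0 := Real.log_neg hρ0 hρ1
  set c : ℝ := -Real.log ρ / Real.log Λ with hc
  have hc0 : 0 < c := div_pos (by linarith) hlogΛ
  have hΛc : (Λ : ℝ) ^ c = ρ⁻¹ := by
    rw [Real.rpow_def_of_pos (by linarith), hc]
    rw [mul_div_cancel₀ _ hlogΛ.ne', Real.exp_neg, Real.exp_log hρ0]
  have haR : (0 : ℝ) < a := by exact_mod_cast ha
  have hΛ0 : (0 : ℝ) < Λ := by linarith
  refine ⟨((Λ : ℝ) * a) ^ c, c, hc0, ?_⟩
  intro n hn
  have hnR : (0 : ℝ) < n := by exact_mod_cast hn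
  -- the numerical inequality
  have hnum : ∀ K : ℕ, n < Λ ^ (K + 1) * a → ρ ^ K ≤ ((Λ : ℝ) * a) ^ c * (n : ℝ) ^ (-c) := by
    intro K hK
    have h1 : (n : ℝ) ≤ (Λ : ℝ) ^ K * (Λ * a) := by
      have h2 : (n : ℝ) < (Λ : ℝ) ^ (K + 1) * a := by exact_mod_cast hK
      rw [pow_succ] at h2
      linarith
    have h3 : (n : ℝ) ^ c ≤ ((Λ : ℝ) ^ K * (Λ * a)) ^ c :=
      Real.rpow_le_rpow hnR.le h1 hc0.le
    have h4 : ((Λ : ℝ) ^ K * (Λ * a)) ^ c = (ρ⁻¹) ^ K * ((Λ : ℝ) * a) ^ c := by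
      rw [Real.mul_rpow (by positivity) (by positivity), ← Real.rpow_natCast, ← Real.rpow_mul
        hΛ0.le, mul_comm (K : ℝ) c, Real.rpow_mul hΛ0.le, hΛc, Real.rpow_natCast]
    rw [h4] at h3
    rw [Real.rpow_neg hnR.le, ← div_eq_mul_inv, le_div_iff₀ (Real.rpow_pos_of_pos hnR c)]
    calc ρ ^ K * (n : ℝ) ^ c ≤ ρ ^ K * ((ρ⁻¹) ^ K * ((Λ : ℝ) * a) ^ c) :=
          mul_le_mul_of_nonneg_left h3 (by positivity)
      _ = ((Λ : ℝ) * a) ^ c := by
          rw [← mul_assoc, ← mul_pow, mul_inv_cancel₀ hρ0.ne', one_pow, one_mul]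
  by_cases hna : n < a
  · refine prob_le_one.trans ?_
    have h1 := hnum 0 (by
      rw [zero_add, pow_one]
      calc n < 1 * a := by omega
        _ ≤ Λ * a := Nat.mul_le_mul (by omega) le_rfl)
    rw [pow_zero] at h1
    rw [← ENNReal.ofReal_one]
    exact ENNReal.ofReal_le_ofReal h1
  · have hna' : a ≤ n := not_lt.1 hna
    have hdiv : 1 ≤ n / a := (Nat.one_le_div_iff (by omega)).2 hna'
    set K : ℕ := Nat.log Λ (n / a) with hK
    have h1 : Λ ^ K ≤ n / a := Nat.pow_log_le_self Λ (by omega)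
    have h2 : n / a < Λ ^ (K + 1) := Nat.lt_pow_succ_log_self (by omega) _
    have h3 : rI l b a K ≤ n := by
      unfold rI
      calc (l * l * b) ^ K * a ≤ (n / a) * a := Nat.mul_le_mul h1 le_rfl
        _ ≤ n := Nat.div_mul_le_self n a
    have h4 : n < Λ ^ (K + 1) * a := (Nat.div_lt_iff_lt_mul (by omega)).1 h2
    have h5 : soup 3 α {N | ∃ y, nm y = n ∧ Conn (sp N) 0 y} ≤
        soup 3 α {N | ∃ y, rI l b a K ≤ nm y ∧ Conn (sp N) 0 y} := by
      refine measure_mono ?_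
      rintro N ⟨y, hy1, hy2⟩
      exact ⟨y, by rw [hy1]; exact h3, hy2⟩
    exact h5.trans ((hdec K).trans (ENNReal.ofReal_le_ofReal (hnum K h4)))

end Pool.Agent.H89.LP

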